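import Mathlib
import Pool.Agent.Helper466.Starter.Defs
import Pool.Agent.Helper466.Starter.Counting
import Pool.Agent.Helper466.Starter.MaxClass
import Pool.Agent.Helper466.Starter.Dichotomy

set_option autoImplicit false

/-!
Every finite group of order a power of two that admits no starter is cyclic. The definitions
(`IsInvol`, `Fixes`, `IsShort`, `bdry`, `verts`, `IsLeftTransversal`, `HasStarter`) are in
`Pool.Agent.Helper466.Starter.Defs`.
-/

namespace Pool.Agent.Results.MP_da365b_co.TwoGroupStarter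

open Pool.Agent.Helper466.Starter

/-- Every finite 2-group which admits no starter is cyclic. -/
theorem result {G : Type*} [Group G] [Finite G] (n : ℕ) (hG : Nat.card G = 2 ^ n)
    (h : ¬ HasStarter G) : IsCyclic G := by
  by_contra hnc
  apply h
  have h2 : IsPGroup 2 G := IsPGroup.of_card hG
  have hcov : ∃ D : Finset G, Cov D ∧ 1 ∉ D ∧ (∀ x ∈ D, x⁻¹ ∈ D) ∧
      ∀ x ∈ Subgroup.closure {y : G | ∃ a : G, y = a * a}, x * x ≠ 1 → x ∈ D := by
    rcases four_or_maxclass h2 hnc with ⟨z, e, hz1, hzz, hzc, hee, he1, hez, hconj⟩ |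
      ⟨g, c, hc4, hc, hidx, hinv⟩
    · exact cov_of_data h2 z e hz1 hzz hzc hee he1 hez hconj
    · exact cov_maxclass h2 g c hc4 hc hidx hinv
  obtain ⟨D, hD, h1, hinv, hmem⟩ := hcov
  refine hasStarter_of_cov hD h1 hinv ?_
  intro d hd hdd
  obtain ⟨H, _, hH, hdH⟩ := exists_index_two
    (Subgroup.closure {y : G | ∃ a : G, y = a * a})
    (fun g => Subgroup.subset_closure ⟨g, rfl⟩) d (fun h => hd (hmem d h hdd))
  exact ⟨H, hH, hdH⟩

end Pool.Agent.Results.MP_da365b_co.TwoGroupStarter
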